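import Pool.Agent.MC87.CoverNeck

/-!
# MP_a43719_gt: a thin wall has many necks

Let `K_t` be the outer or inner level set flow of a hypersurface in `ℝ^d`, `d ≥ 4`, given by the
Evans-Spruck solution `v` (so no regularity of the flow is assumed), and let `x₀ ∈ K_T`. Suppose that for
`t₀ < t < T`, in a cylinder around `x₀` of radius and height `16 R √(T - t)`, the set `K_t` lies in the slab of
height `h t √(T - t)` around a hyperplane, and that over the disc of radius `R √(T - t)` and outside of a set
`P t` (the holes) it is a wall: the complement of `K_t` is covered there by two open sets with disjoint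
closures, one of them containing the points above the slab, the other those below. The set `P t` is
arbitrary: the holes may have any shape, open, close, merge and move with any speed. Nothing is
assumed about the shape of the wall either. Let the holes at all times of the interval
`[t, t + (h t) ^ 2 (T - t)]` be covered by `N t` balls of radius `V h t √(T - t)`; larger balls are allowed if they
have a core of comparable size which is free of `K` at some time of the interval. Then
`N t * (h t) ^ (d - 3) > ε` for some `t`, and so for times `t` arbitrarily close to `T` (apply the theorem to a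
larger `t₀`).

So at a point at which the outer or inner flow has a tangent plane of multiplicity at least two, in the
form of such a wall, the set of the necks is large: on the scale `h t √(T - t)` of the thickness of the wall
it is at least `(d - 3)`-dimensional. In particular there are infinitely many necks in the limit, unless
they are large sets or move very fast. The power `d - 3` is the critical one: `h ^ (-(d - 3))` is the order of
the number of necks of size `h` in a slab of thickness `h` whose tilt excess and height excess are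
comparable.
-/

set_option autoImplicit false

open Set

namespace Pool.Agent.Results.MP_a43719_gt.NeckCount

open MC87

theorem result (d : ℕ) (hd : 4 ≤ d) (θ R V : ℝ) (hθ : 0 < θ) (hR : 0 < R)
    (hRd : 4 * (d : ℝ) < R ^ 2) (hV : 0 ≤ V) :
    ∃ ε η : ℝ, 0 < ε ∧ 0 < η ∧ ∀ v : Eu d × ℝ → ℝ, IsEvansSpruckFlow v →
      ∀ K : Set (Eu d × ℝ), (K = {p | 0 ≤ v p} ∨ K = {p | v p ≤ 0}) →
      ∀ (x₀ ν : Eu d) (t₀ T : ℝ) (h : ℝ → ℝ) (P : ℝ → Set (Eu d)) (A : ℝ → Finset (Eu d × ℝ))
        (U₁ U₂ : Set (Eu d × ℝ)), 0 ≤ t₀ → t₀ < T → ‖ν‖ = 1 → (x₀, T) ∈ K →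
      ContinuousOn h (Ioo t₀ T) → AntitoneOn h (Ioo t₀ T) →
      (∀ t ∈ Ioo t₀ T, 0 < h t ∧ h t ≤ η) → IsWallS R t₀ T h P ν x₀ K U₁ U₂ →
      IsCovered θ V R t₀ T h P A ν x₀ K →
      ∃ t ∈ Ioo t₀ T, ε < ((A t).card : ℝ) * h t ^ (d - 3) := by
  obtain ⟨ε, η, hε, hη, key⟩ := many_balls (d := d) (by omega) hθ hR hRd hV
  refine ⟨ε, η, hε, hη, ?_⟩
  intro v hv K hK x₀ ν t₀ T h P A U₁ U₂ ht₀ ht₀T hν hmem hc hanti hh w w'
  -- both cases reduce to `K = {0 ≤ u}`
  obtain ⟨u, hu, hKu⟩ : ∃ u : Eu d × ℝ → ℝ, IsEvansSpruckFlow u ∧ K = {p | 0 ≤ u p} := by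
    rcases hK with hK | hK
    · exact ⟨v, hv, hK⟩
    · refine ⟨fun p => - v p, hv.neg, ?_⟩
      rw [hK]
      ext p
      simp only [mem_ofPred_eq, Left.nonneg_neg_iff]
  subst hKu
  obtain ⟨t, h1, h2, h3⟩ := key u hu x₀ ν t₀ T h P A U₁ U₂ ht₀ ht₀T hν hmem hc
    (fun t t' g1 g2 g3 => hanti ⟨g1, g2.trans_lt g3⟩ ⟨g1.trans_le g2, g3⟩ g2)
    (fun t g1 g2 => hh t ⟨g1, g2⟩) w w'
  exact ⟨t, ⟨h1, h2⟩, h3⟩

end Pool.Agent.Results.MP_a43719_gt.NeckCount
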