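import Pool.Agent.MC87.BettiMain

/-!
# MP_a43719_gt: a thin wall with separate necks and the first Betti number of the complement

Let `K_t` be the outer or inner level set flow of a hypersurface in `ℝ^d`, `d ≥ 4`, given by the
Evans-Spruck solution `v` (so no regularity of the flow is assumed). Suppose that for `t₀ < t < T`, in the
cylinder around `x₀` of radius and height `2 R √(T - t)`, the set `K_t` lies in the slab of height
`h t √(T - t)` around a hyperplane, and that it is a wall with finitely many disjoint closed holes of any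
shape: outside of the holes the complement of `K_t` is covered by two open sets with disjoint closures,
one of them containing the points above the slab, the other those below. Let `J t` be a set of holes which
lie in the disc of radius `2 R √(T - t)` and are passed by a path outside of `K_t`. Let `m t` be such that all
holes at all times of the interval `[t, t + (h t) ^ 2 (T - t)]` are covered, in the disc of radius `R`, by
`(1 + card (J t)) m t` balls of radius `V h t √(T - t)`. Then for some `t`, and so for times `t` arbitrarily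
close to `T`, one has `(n + 1) m t > ε (h t) ^ (-(d - 3))`, where `n` is at most the first Betti number of
`ℝ^d \ K_t`.

Up to the first singular time the sets `ℝ^d \ K_t` are all homeomorphic, and their first Betti number is a
finite number `B`. So at the first singular time of a smooth flow, at a point with a tangent plane of
multiplicity at least two in the form of such a wall, `m t > ε (h t) ^ (-(d - 3)) / (B + 1)` for times `t`
arbitrarily close to `T`. The number `m t` counts the balls of the size of the thickness which one hole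
meets in the time `(h t) ^ 2 (T - t)`. So necks of this size which move by a bounded multiple of it in this
time (`m` bounded) are not possible, nor are, for `d ≥ 5`, thin tubes around curves of bounded rescaled
length (`m = C / h`); the holes have to be large sets, of dimension at least `d - 3` on the scale of the
thickness, or their speed is at least of the order `(h t) ^ (2 - d) / √(T - t)`.
-/

set_option autoImplicit false

open Set

namespace Pool.Agent.Results.MP_a43719_gt.NeckTopology

open MC87

theorem result (d : ℕ) (hd : 4 ≤ d) (R V : ℝ) (hR : 0 < R)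
    (hRd : 4 * (d : ℝ) < R ^ 2) (hV : 0 ≤ V) :
    ∃ ε η : ℝ, 0 < ε ∧ 0 < η ∧ ∀ v : Eu d × ℝ → ℝ, IsEvansSpruckFlow v →
      ∀ K : Set (Eu d × ℝ), (K = {p | 0 ≤ v p} ∨ K = {p | v p ≤ 0}) →
      ∀ (ι : Type) (x₀ ν : Eu d) (t₀ T : ℝ) (h m : ℝ → ℝ) (I J : ℝ → Finset ι)
        (P : ι → ℝ → Set (Eu d)) (A : ℝ → Finset (Eu d))
        (U₁ U₂ : Set (Eu d × ℝ)), 0 ≤ t₀ → t₀ < T → ‖ν‖ = 1 →
      ContinuousOn h (Ioo t₀ T) → AntitoneOn h (Ioo t₀ T) →
      (∀ t ∈ Ioo t₀ T, 0 < h t ∧ h t ≤ η) → IsWallP R t₀ T h I P ν x₀ K U₁ U₂ →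
      HasHoles V R t₀ T h m I J P A ν x₀ K →
      ∃ t ∈ Ioo t₀ T, ∃ n : ℕ, ε < ((n : ℝ) + 1) * m t * h t ^ (d - 3) ∧
        BettiGE {X : Eu d | (X, t) ∉ K} n := by
  obtain ⟨ε, η, hε, hη, key⟩ := betti_large (d := d) (by omega) hR hRd hV
  refine ⟨ε, η, hε, hη, ?_⟩
  intro v hv K hK ι x₀ ν t₀ T h m I J P A U₁ U₂ ht₀ ht₀T hν hc hanti hh w w'
  -- both cases reduce to `K = {0 ≤ u}`
  obtain ⟨u, hu, hKu⟩ : ∃ u : Eu d × ℝ → ℝ, IsEvansSpruckFlow u ∧ K = {p | 0 ≤ u p} := by
    rcases hK with hK | hK
    · exact ⟨v, hv, hK⟩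
    · refine ⟨fun p => - v p, hv.neg, ?_⟩
      rw [hK]
      ext p
      simp only [mem_ofPred_eq, Left.nonneg_neg_iff]
  subst hKu
  obtain ⟨t, h1, h2, n, h3, h4⟩ := key u hu ι x₀ ν t₀ T h m I J P A U₁ U₂ ht₀ ht₀T hν hc
    (fun t t' g1 g2 g3 => hanti ⟨g1, g2.trans_lt g3⟩ ⟨g1.trans_le g2, g3⟩ g2)
    (fun t g1 g2 => hh t ⟨g1, g2⟩) w w'
  exact ⟨t, ⟨h1, h2⟩, n, h3, h4⟩

end Pool.Agent.Results.MP_a43719_gt.NeckTopology
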