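import Pool.Agent.MC61.Main

/-!
# MP_a43719_gt: two sheets joined by necks of small parabolic content stay apart, at all scales

Let two disjoint sheets in `ℝ^(n+1)`, the graphs of `g₂ < g₁`, move by mean curvature for `t₀ < t < t₂ ≤ T`
over the disc of radius `R √(T - t)` and centre `√(T - t) c` without a family of holes in space-time. Hole
number `i` is the parabolic cylinder of the points `(x, t)` with `|x - b_i| < ρ_i √(T - s_i)` and
`|t - s_i| < ρ_i² (T - s_i)`. There may be infinitely many holes, and their rescaled radii `ρ_i` may tend to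
zero. Let `0 < q < n`, and let the sum of the `ρ_i^q` over the holes with times in `[T - 2σ, T - σ]` be at
most `ε` for all `σ > 0`. The slopes of the sheets are at most `θ`; the curvature is controlled with the
natural scaling, and near the holes it may be larger.

If the sheets have at least the distance `u` at the time `t₁`, then at all times `t₁ ≤ t < t₂`, up to a set
of `y` of measure `δ`, their distance at the point `√(T - t) y` is at least
`u (1 - δ - |y - c|² / R²) ((T - t) / (T - t₁))^λ`. Here `λ` is any number with `λ ≤ 1/2` and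
`2n + c₀² / (4 (1 - λ)) < λ R²`, `|c| ≤ c₀`; so it may be taken as small as we like if `R` is large. For
`λ < 1/2` the right side is much larger than `√(T - t)` if `T - t` is much smaller than `T - t₁`. All
constants are independent of the flow, so this excludes multiplicity at least two not only for the tangent
flows but for blowup limits with moving points.
-/

set_option autoImplicit false

open Filter Topology Set MeasureTheory Metric

namespace Pool.Agent.Results.MP_a43719_gt.SheetsApart

open MC87 MC43 MC61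

theorem result (n : ℕ) (q R c₀ lam δ : ℝ) (hq : 0 < q) (hqn : q < n) (hR : 0 < R)
    (hc₀ : 0 ≤ c₀) (hlam : lam ≤ 1 / 2)
    (hRc : 2 * n + c₀ ^ 2 / (4 * (1 - lam)) < lam * R ^ 2) (hδ : 0 < δ) :
    ∃ ε θ : ℝ, 0 < ε ∧ 0 < θ ∧ ∀ (t₀ t₁ t₂ T u : ℝ) (ι : Type) (c : Eu n) (b : ι → Eu n)
      (s ρ : ι → ℝ) (g₁ g₂ : Eu n × ℝ → ℝ), t₀ < t₁ → t₂ ≤ T → 0 < u → ‖c‖ ≤ c₀ →
      HolesSmall q ε T s ρ → SheetPairOn q θ t₀ t₂ T b s ρ (holedDisc R T c b s ρ) g₁ g₂ →
      (∀ x ∈ holedDisc R T c b s ρ t₁, u ≤ g₁ (x, t₁) - g₂ (x, t₁)) →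
      ∀ t, t₁ ≤ t → t < t₂ →
        volume.real {y : Eu n | ‖y - c‖ ^ 2 < (1 - δ) * R ^ 2 ∧
          (√(T - t) • y ∈ holedDisc R T c b s ρ t →
            g₁ (√(T - t) • y, t) - g₂ (√(T - t) • y, t) <
              u * (1 - δ - ‖y - c‖ ^ 2 / R ^ 2) * ((T - t) / (T - t₁)) ^ lam)} ≤ δ :=
  sheets_apart_on hq hqn hR hc₀ hlam hRc hδ

end Pool.Agent.Results.MP_a43719_gt.SheetsApart
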