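import Pool.Agent.MC87.CritThick
import Pool.Agent.MC87.WallPairs

/-!
# MP_a43719_gt: walls of a level set flow do not become thin

Let `K_t` be the outer or inner level set flow of a hypersurface in `ℝ^d`, given by the Evans-Spruck
solution `v` (so no regularity of the flow is assumed, and it may have passed through singularities).
Consider the balls of radius `R √(T - τ)` around `x₀`, `t₁ ≤ τ ≤ t₂`, and holes in them: parabolic
cylinders of small total content of the dimension `d - 1`. Suppose that in these balls, outside of the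
holes, the complement of `K` is covered by two disjoint open sets `U₁`, `U₂`, that is, `K` is a wall which
separates `U₁ \ K` from `U₂ \ K`, while in the holes there may be necks, and suppose that the two
sides have a distance `u > 0` at the time `t₁`. Then at the times `t₁ < t < t₂` the wall is not thin: for
each hyperplane through `x₀` there is a point `X` of it, at distance at most `√(T - t)` from `x₀` and not in
the holes, such that the ball of radius `h √(T - t)` around `X` does not meet both sides. Here `h √(T - t)`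
is a fixed multiple of the smaller one of `((T - t₁) / (T - t)) ^ β √(T - t) / √(T - t₁) u` and of the radii of
the holes.

So a wall does not collapse to a hyperplane, with any multiplicity, unless the necks in it, together
with the balls of radius comparable to the thickness around them, have a content bounded below. The
dimension `d - 1` of the content is critical: `N` necks of the size of the thickness `h` which exist at all
times have the content `N h^(d - 3)`, which is small unless there are at least `c h^(-(d - 3))` necks, and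
this is the order of the number of necks allowed by the energy.
-/

set_option autoImplicit false

open Set

namespace Pool.Agent.Results.MP_a43719_gt.ThickWalls

open MC87

theorem result (d : ℕ) (hd : 2 ≤ d) (R : ℝ) (hR : 0 < R) (hRd : 4 * (d : ℝ) < R ^ 2) :
    ∃ ε Λ β : ℝ, 0 < ε ∧ 0 < Λ ∧ 0 < β ∧ ∀ v : Eu d × ℝ → ℝ, IsEvansSpruckFlow v →
      ∀ K : Set (Eu d × ℝ), (K = {p | 0 ≤ v p} ∨ K = {p | v p ≤ 0}) →
      ∀ (ι : Type) (b : ι → Eu d) (s ρ : ι → ℝ) (x₀ ν : Eu d) (t₁ t t₂ T u h : ℝ)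
      (U₁ U₂ : Set (Eu d × ℝ)), 0 < t₁ → t₁ < t → t < t₂ → t₂ < T → ‖ν‖ = 1 → 0 < h →
      MC43.HolesSmall ((d : ℝ) - 1) ε T s ρ → IsOpen U₁ → IsOpen U₂ → Disjoint U₁ U₂ →
      (∀ τ, t₁ ≤ τ → τ ≤ t₂ → ∀ X : Eu d, X - x₀ ∈ MC43.holedDisc R T 0 b s ρ τ →
        (X, τ) ∉ K → (X, τ) ∈ U₁ ∪ U₂) →
      (∀ X Y : Eu d, X - x₀ ∈ MC43.holedDisc R T 0 b s ρ t₁ →
        Y - x₀ ∈ MC43.holedDisc R T 0 b s ρ t₁ → (X, t₁) ∈ U₁ \ K → (Y, t₁) ∈ U₂ \ K →
        u ≤ ‖X - Y‖) →
      Λ * h * ((T - t) / (T - t₁)) ^ β * √(T - t₁) ≤ u → Λ * h ≤ 1 →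
      (∀ i, T - t ≤ 2 * (T - s i) → Λ * h ≤ ρ i) →
      ∃ X : Eu d, inner ℝ ν (X - x₀) = 0 ∧ ‖X - x₀‖ ≤ √(T - t) ∧
        X - x₀ ∈ MC43.holedDisc R T 0 b s ρ t ∧
        ((∀ Y, ‖Y - X‖ ≤ h * √(T - t) → (Y, t) ∉ U₁ \ K) ∨
          (∀ Y, ‖Y - X‖ ≤ h * √(T - t) → (Y, t) ∉ U₂ \ K)) := by
  obtain ⟨ε, Λ, β, hε, hΛ, hβ, key⟩ := crit_thick hd hR hRd
  refine ⟨ε, Λ, β, hε, hΛ, hβ, ?_⟩
  intro v hv K hK ι b s ρ x₀ ν t₁ t t₂ T u h U₁ U₂ ht₁0 ht₁t htt₂ ht₂T hν hh hH hU₁ hU₂ hdis hcov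
    hapart hu hh1 hh2
  -- both cases reduce to `K = {0 ≤ w}`
  obtain ⟨w, hw, hKw⟩ : ∃ w : Eu d × ℝ → ℝ, IsEvansSpruckFlow w ∧ K = {p | 0 ≤ w p} := by
    rcases hK with hK | hK
    · exact ⟨v, hv, hK⟩
    · refine ⟨fun p => - v p, hv.neg, ?_⟩
      rw [hK]
      ext p
      simp only [mem_ofPred_eq, Left.nonneg_neg_iff]
  have hnot : ∀ p : Eu d × ℝ, p ∉ K ↔ w p < 0 := by
    intro p
    rw [hKw]
    simp only [mem_ofPred_eq, not_le]
  have hd1 : ∀ p ∈ closure U₁, p ∉ U₂ := fun p h1 h2 => by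
    obtain ⟨q, hq1, hq2⟩ := mem_closure_iff_nhds.mp h1 _ (hU₂.mem_nhds h2)
    exact disjoint_left.mp hdis hq2 hq1
  have hd2 : ∀ p ∈ closure U₂, p ∉ U₁ := fun p h1 h2 => by
    obtain ⟨q, hq1, hq2⟩ := mem_closure_iff_nhds.mp h1 _ (hU₁.mem_nhds h2)
    exact disjoint_left.mp hdis hq1 hq2
  have hmin1 : t < min t₂ (t + (T - t) / 4) := lt_min htt₂ (by linarith)
  have hmin2 : min t₂ (t + (T - t) / 4) ≤ t + (T - t) / 4 := min_le_right _ _
  obtain ⟨X, h1, h2, h3, h4⟩ := key w hw ι b s ρ x₀ ν t₁ t (min t₂ (t + (T - t) / 4)) T u h U₁ U₂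
    ht₁0 ht₁t hmin1 (by linarith) (by linarith) hν hh hH hU₁ hU₂
    (fun τ h1 h2 X h3 => ⟨fun h4 => hd1 _ h4, fun h4 => hd2 _ h4,
      fun h4 => hcov τ h1 (h2.trans (min_le_left _ _)) X h3 ((hnot _).mpr h4)⟩)
    (fun X Y h1 h2 h3 h4 h5 h6 => hapart X Y h1 h2 ⟨h3, (hnot _).mpr h5⟩ ⟨h4, (hnot _).mpr h6⟩)
    hu hh1 hh2
  refine ⟨X, h1, h2, h3, ?_⟩
  rcases h4 with h4 | h4
  · exact Or.inl fun Y hY hYU => absurd ((hnot _).mp hYU.2) (not_lt.mpr (h4 Y hY hYU.1))
  · exact Or.inr fun Y hY hYU => absurd ((hnot _).mp hYU.2) (not_lt.mpr (h4 Y hY hYU.1))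

end Pool.Agent.Results.MP_a43719_gt.ThickWalls
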